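import Pool.Agent.Lib.helper5.Extral

namespace Pool.Agent.Results.MP_5b7d0d_gt.NotTEmbedded

theorem result (ι : Type) [Uncountable ι] :
    ¬ ∃ φ : {f : (ι → Bool) → ℝ // Continuous f} → {g : (ι → unitInterval) → ℝ // Continuous g},
      Continuous φ ∧ ∀ (f : {f : (ι → Bool) → ℝ // Continuous f}) (x : ι → Bool),
        (φ f).1 (fun i => if x i = true then 1 else 0) = f.1 x := by
  rintro ⟨φ, h1, h2⟩
  obtain ⟨S, hS, h⟩ := H5C.sep_of_ext H5C.rigid_of_td h1 h2
  obtain ⟨x, y, h3, h4⟩ := H5C.not_sep (e := fun (x : ι → Bool) (i : ι) =>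
    if x i = true then (1 : unitInterval) else 0) (continuous_pi fun i =>
      (continuous_of_discreteTopology (f := fun b : Bool =>
        if b = true then (1 : unitInterval) else 0)).comp (continuous_apply i)) hS
  exact h3 (h x y h4)

end Pool.Agent.Results.MP_5b7d0d_gt.NotTEmbedded
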